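import Pool.Agent.Work.MP_5fc0ff_an.Conc

/-!
# Pointwise divergence of Schroedinger means on a compact symmetric space of rank six

`X` is the product of six three-spheres, a simply connected Riemannian symmetric space of compact
type of rank six. For every `α < 3 / 5` there is a function in the Sobolev space of order `α` whose
free Schroedinger evolution is unbounded as `t → 0+` at almost every point of `X`.
-/

set_option autoImplicit false

open Set Filter Topology MeasureTheory
open scoped ENNReal Real ContDiff ComplexConjugate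

namespace Pool.Agent.Results.MP_5fc0ff_an.DivergenceRankSix

/-- The ambient space of one factor. -/
abbrev E4 := EuclideanSpace ℝ (Fin 4)

/-- The unit sphere of `ℝ⁴`. -/
abbrev S3 := Metric.sphere (0 : E4) 1

/-- The labels of the six factors. -/
abbrev Six := Fin 3 × Fin 2

/-- The space: the product of six copies of the unit three-sphere. -/
abbrev X := Six → S3

/-- The surface measure of the unit three-sphere. -/
noncomputable def area : Measure S3 := (volume : Measure E4).toSphere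

/-- The normalised surface measure of the unit three-sphere. -/
noncomputable def surf : Measure S3 := (area univ)⁻¹ • area

/-- The normalised Riemannian measure of `X`. -/
noncomputable def vol : Measure X := Measure.pi fun _ => surf

/-- The restriction to `X` of a function on the ambient space. -/
def res (F : (Six → E4) → ℂ) (x : X) : ℂ := F fun i => (x i : E4)

/-- The point at time `t` of the curve which moves in the factor `i` along the unit speed great
circle through `x i` with initial velocity `w`, the other coordinates being fixed. -/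
noncomputable def curve (x : Six → E4) (i : Six) (w : E4) (t : ℝ) : Six → E4 :=
  Function.update x i (Real.cos t • x i + Real.sin t • w)

/-- `F` is a smooth function on the ambient space whose restriction to `X` satisfies
`Δ F = - μ F`, where `Δ` is the Laplace-Beltrami operator of `X` for the metric which on each
factor is `1 / κ` times the round metric: at each point `x` of `X`, for all orthonormal frames `v i`
of the tangent spaces of the factors, `Δ F (x)` is `κ` times the sum of the second derivatives at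
`t = 0` of `F` along the great circles `cos t • x i + sin t • v i a` in the factors. -/
def IsEigenfunction (κ μ : ℝ) (F : (Six → E4) → ℂ) : Prop :=
  ContDiff ℝ ∞ F ∧ ∀ x : Six → E4, (∀ i, ‖x i‖ = 1) → ∀ v : Six → Fin 3 → E4,
    (∀ i, Orthonormal ℝ (v i)) → (∀ i a, inner ℝ (x i) (v i a) = 0) →
    κ * ∑ i, ∑ a, iteratedDeriv 2 (fun t : ℝ => F (curve x i (v i a) t)) 0 = -(μ * F x)

/-- The inner product of `L²(X)`. -/
noncomputable def ip (f g : X → ℂ) : ℂ := ∫ x, conj (f x) * g x ∂vol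

/-- Smooth eigenfunctions `F k` of the Laplace-Beltrami operator, `Δ F k = - μ k • F k`, which are
orthonormal in `L²(X)`. -/
structure EigenFamily (κ : ℝ) where
  /-- the index set -/
  J : Type
  /-- the eigenvalues of `-Δ` -/
  μ : J → ℝ
  /-- the eigenfunctions -/
  F : J → (Six → E4) → ℂ
  nonneg : ∀ k, 0 ≤ μ k
  eigen : ∀ k, IsEigenfunction κ (μ k) (F k)
  unit : ∀ k, ip (res (F k)) (res (F k)) = 1
  orth : ∀ k l, k ≠ l → ip (res (F k)) (res (F l)) = 0

/-- The function `g` is square integrable and `g = ∑ a k • F k`, the series converging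
unconditionally in `L²(X)`. -/
def L2Sum {κ : ℝ} (Φ : EigenFamily κ) (a : Φ.J → ℂ) (g : X → ℂ) : Prop :=
  MemLp g 2 vol ∧
    Tendsto (fun s : Finset Φ.J => eLpNorm (fun x => g x - ∑ k ∈ s, a k * res (Φ.F k) x) 2 vol)
      atTop (𝓝 0)

/-- `f = ∑ c k • F k` in `L²(X)` and `∑ (1 + μ k) ^ α * |c k| ^ 2` is finite, so that
`f` is in the Sobolev space `H^α(X)`. -/
def InSobolev {κ : ℝ} (Φ : EigenFamily κ) (α : ℝ) (c : Φ.J → ℂ) (f : X → ℂ) : Prop :=
  L2Sum Φ c f ∧ Summable fun k => (1 + Φ.μ k) ^ α * ‖c k‖ ^ 2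

/-- `u t = ∑ exp (- i t μ k) • c k • F k` in `L²(X)` for every `t > 0`: the functions `u t` are
representatives of the Schroedinger evolution of `∑ c k • F k`. -/
def IsEvolution {κ : ℝ} (Φ : EigenFamily κ) (c : Φ.J → ℂ) (u : ℝ → X → ℂ) : Prop :=
  ∀ t : ℝ, 0 < t → L2Sum Φ (fun k => Complex.exp (-Complex.I * t * Φ.μ k) * c k) (u t)

/-- Divergence of the Schroedinger evolution below regularity `3 / 5` on `X`. -/
theorem result : ∀ α : ℝ, α < 3 / 5 → ∀ κ : ℝ, 0 < κ →
    ∃ (Φ : EigenFamily κ) (c : Φ.J → ℂ) (f : X → ℂ), InSobolev Φ α c f ∧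
      (∃ u, IsEvolution Φ c u) ∧ ∀ u, IsEvolution Φ c u →
        ∀ᵐ x ∂vol, (∀ M : ℝ, ∃ᶠ t in 𝓝[>] (0 : ℝ), M ≤ ‖u t x‖) ∧
          ¬ Tendsto (fun t => u t x) (𝓝[>] 0) (𝓝 (f x)) := by
  intro α hα κ hκ
  obtain ⟨S⟩ := Work.MP_5fc0ff_an.exists_hump (α := max α 0) hκ (le_max_right _ _)
    (max_lt hα (by norm_num))
  have hα0 : (0 : ℝ) ≤ max α 0 := le_max_right _ _
  have hev : ∀ k : Work.MP_5fc0ff_an.JJ S, 0 ≤ Work.MP_5fc0ff_an.ev κ (Work.MP_5fc0ff_an.ee S k) :=
    fun k => (Work.MP_5fc0ff_an.ev_bound hκ (S.two _) k.2.2).1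
  have heig : ∀ k : Work.MP_5fc0ff_an.JJ S,
      IsEigenfunction κ (Work.MP_5fc0ff_an.ev κ (Work.MP_5fc0ff_an.ee S k))
        (Work.MP_5fc0ff_an.zp (Work.MP_5fc0ff_an.ee S k)) := by
    intro k
    obtain ⟨h1, h2⟩ := Work.MP_5fc0ff_an.zp_eigen κ (Work.MP_5fc0ff_an.ee S k)
    refine ⟨h1, fun x hx v hv hxv => ?_⟩
    have h3 := h2 x hx v hv hxv
    rw [neg_mul] at h3
    exact h3
  have hip : ∀ k l : Work.MP_5fc0ff_an.JJ S,
      ip (res (Work.MP_5fc0ff_an.zp (Work.MP_5fc0ff_an.ee S k)))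
        (res (Work.MP_5fc0ff_an.zp (Work.MP_5fc0ff_an.ee S l))) =
      if Work.MP_5fc0ff_an.ee S k = Work.MP_5fc0ff_an.ee S l then 1 else 0 := fun k l =>
    Work.MP_5fc0ff_an.integral_ez _ _
  let Φ : EigenFamily κ :=
    { J := Work.MP_5fc0ff_an.JJ S
      μ := fun k => Work.MP_5fc0ff_an.ev κ (Work.MP_5fc0ff_an.ee S k)
      F := fun k => Work.MP_5fc0ff_an.zp (Work.MP_5fc0ff_an.ee S k)
      nonneg := hev
      eigen := heig
      unit := fun k => by rw [hip, if_pos rfl]
      orth := fun k l hkl => by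
        rw [hip, if_neg fun h => hkl (Work.MP_5fc0ff_an.ee_injective S h)] }
  have hE : ∀ k : Work.MP_5fc0ff_an.JJ S, Work.MP_5fc0ff_an.EE S k =ᵐ[Work.MP_5fc0ff_an.nu _]
      res (Work.MP_5fc0ff_an.zp (Work.MP_5fc0ff_an.ee S k)) := fun k =>
    Work.MP_5fc0ff_an.EZ_coe _
  have hu : ∀ t : ℝ, HasSum (fun k : Work.MP_5fc0ff_an.JJ S => (Complex.exp (-Complex.I * t *
      (Work.MP_5fc0ff_an.ev κ (Work.MP_5fc0ff_an.ee S k) : ℝ)) * (S.b k.1 : ℂ)) •
        Work.MP_5fc0ff_an.EE S k) (Work.MP_5fc0ff_an.uu S t) := by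
    intro t
    have h := Work.MP_5fc0ff_an.uu_hasSum hκ hα0 S t
    have e : ∀ k, Work.MP_5fc0ff_an.aa S t k = Complex.exp (-Complex.I * t *
        (Work.MP_5fc0ff_an.ev κ (Work.MP_5fc0ff_an.ee S k) : ℝ)) * (S.b k.1 : ℂ) := by
      intro k
      unfold Work.MP_5fc0ff_an.aa Work.MP_5fc0ff_an.ex
      rw [mul_comm]
      congr 2
      push_cast
      ring
    simp_rw [e] at h
    exact h
  have hu0 : HasSum (fun k : Work.MP_5fc0ff_an.JJ S => (S.b k.1 : ℂ) •
        Work.MP_5fc0ff_an.EE S k) (Work.MP_5fc0ff_an.uu S 0) := by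
    have h := hu 0
    simp only [Complex.ofReal_zero, mul_zero, zero_mul, Complex.exp_zero, one_mul] at h
    exact h
  refine ⟨Φ, fun k : Work.MP_5fc0ff_an.JJ S => (S.b k.1 : ℂ), Work.MP_5fc0ff_an.uu S 0,
    ⟨?_, ?_⟩, ⟨fun t => Work.MP_5fc0ff_an.uu S t, fun t _ => ?_⟩, ?_⟩
  · exact Work.MP_5fc0ff_an.l2_conv hE hu0 (Filter.EventuallyEq.refl _ _)
  · refine Summable.of_nonneg_of_le (fun k => ?_) (fun k => ?_)
      (Work.MP_5fc0ff_an.sob_summable hκ hα0 S)
    · have := hev k
      show 0 ≤ (1 + Work.MP_5fc0ff_an.ev κ (Work.MP_5fc0ff_an.ee S k)) ^ α * _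
      positivity
    · rw [Complex.norm_real, Real.norm_eq_abs, sq_abs]
      refine mul_le_mul_of_nonneg_right ?_ (sq_nonneg _)
      exact Real.rpow_le_rpow_of_exponent_le
        (show 1 ≤ 1 + Work.MP_5fc0ff_an.ev κ (Work.MP_5fc0ff_an.ee S k) by
          have := hev k; linarith) (le_max_left _ _)
  · exact Work.MP_5fc0ff_an.l2_conv hE (hu t) (Filter.EventuallyEq.refl _ _)
  · intro U hU
    have hU' : ∀ t, 0 < t → U t =ᵐ[Work.MP_5fc0ff_an.nu _] Work.MP_5fc0ff_an.uu S t :=
      fun t ht => Work.MP_5fc0ff_an.l2_unique hE (hu t) (hU t ht).1 (hU t ht).2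
    filter_upwards [Work.MP_5fc0ff_an.unbounded hκ hα0 S hU'] with x hx
    refine ⟨hx, fun h => ?_⟩
    have h1 := h.norm
    have h2 : ∀ᶠ t in 𝓝[>] (0 : ℝ), ‖U t x‖ < ‖Work.MP_5fc0ff_an.uu S 0 x‖ + 1 :=
      h1.eventually (gt_mem_nhds (lt_add_one _))
    have h3 := hx (‖Work.MP_5fc0ff_an.uu S 0 x‖ + 1)
    obtain ⟨t, ht1, ht2⟩ := (h3.and_eventually h2).exists
    exact absurd ht2 (not_lt.mpr ht1)

end Pool.Agent.Results.MP_5fc0ff_an.DivergenceRankSix
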